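import Pool.Agent.Helper36.TY.PartR

/-!
MP_8ee768_co, project TH-Y', stage A: a pair of positions of a centre in rectangles of groups.

`partG .. j C p q a0 a1 b0 b1 y S` joins the groups number `a0 ≤ i < a1` of the position `p`, only their chunks
with a bit in `y`, with the groups `b0 ≤ j < b1` of the position `q`. `RectOK .. y l` is what it proves (`l` =
bits of the two lanes as in `PartR`); merge rules `mga`, `mgb`, `mgs`, `mgl`; `RectOK.top` gives the part with
the selection of the pair `p, q`.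
-/

set_option autoImplicit false
set_option exponentiation.threshold 2000000

namespace Pool.Agent.Helper36.TY

open Finset
open Pool.Agent.Helper89.CV (OddCover ofMask)
open Pool.Agent.Helper97.CV
open Pool.Agent.Helper79.CV
open Pool.Agent.Helper33.CV
open Pool.Agent.Helper82.TY (Best Lay)
open Pool.Agent.Helper63.SIMD (fld)
open Pool.Agent.Helper63.TY (Cb Acc Agree acc_loopL loopL)
open Pool.Agent.Helper91.TY (runC Good RowsOK recsChk root_letters inL_cutL lyl_letters lzl_letters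
  ents_pair ite0_and KL_eq cutK fld_cutK mem_cutL)
open Pool.Agent.Helper52.TY
open Pool.Agent.Helper38.TY

/-! ### lists of entries -/

/-- the entries of the position `p` -/
noncomputable def posL (p : ℕ) (l : List Ent) : List Ent :=
  @List.rec Ent (fun _ => List Ent) [] (fun e _ ih => ite0 (Nat.beq e.p p) ih (List.cons e ih)) l

theorem mem_posL {p : ℕ} {e : Ent} : ∀ {l : List Ent}, e ∈ posL p l ↔ e ∈ l ∧ e.p = p
  | [] => ⟨fun h => absurd h List.not_mem_nil, fun h => absurd h.1 List.not_mem_nil⟩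
  | x :: l => by
    have ih := mem_posL (p := p) (e := e) (l := l)
    have h0 : posL p (x :: l) = ite0 (Nat.beq x.p p) (posL p l) (x :: posL p l) := rfl
    rw [h0]
    cases h : Nat.beq x.p p with
    | false =>
      rw [ite0_false, ih, List.mem_cons]
      constructor
      · rintro ⟨h1, h2⟩
        exact ⟨Or.inr h1, h2⟩
      · rintro ⟨h1 | h1, h2⟩
        · subst h1
          rw [h2, Nat.beq_refl] at h
          exact Bool.noConfusion h
        · exact ⟨h1, h2⟩
    | true =>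
      have h3 := Nat.eq_of_beq_eq_true h
      rw [ite0_true, List.mem_cons, ih, List.mem_cons]
      constructor
      · rintro (h1 | ⟨h1, h2⟩)
        · exact ⟨Or.inl h1, by rw [h1, h3]⟩
        · exact ⟨Or.inr h1, h2⟩
      · rintro ⟨h1 | h1, h2⟩
        · exact Or.inl h1
        · exact Or.inr ⟨h1, h2⟩

/-- without the first `n` entries -/
noncomputable def dropE (n : ℕ) : List Ent → List Ent :=
  @Nat.rec (fun _ => List Ent → List Ent) (fun l => l)
    (fun _ ih l => @List.rec Ent (fun _ => List Ent) [] (fun _ t _ => ih t) l) n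

theorem dropE_eq (n : ℕ) (l : List Ent) : dropE n l = l.drop n := by
  induction n generalizing l with
  | zero => rfl
  | succ n ih =>
    cases l with
    | nil => rfl
    | cons x l =>
      show dropE n l = _
      rw [ih, List.drop_succ_cons]

/-- the first `n` entries -/
noncomputable def takeE (n : ℕ) : List Ent → List Ent :=
  @Nat.rec (fun _ => List Ent → List Ent) (fun _ => [])
    (fun _ ih l => @List.rec Ent (fun _ => List Ent) [] (fun e t _ => List.cons e (ih t)) l) n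

theorem takeE_eq (n : ℕ) (l : List Ent) : takeE n l = l.take n := by
  induction n generalizing l with
  | zero => rfl
  | succ n ih =>
    cases l with
    | nil => rfl
    | cons x l =>
      show x :: takeE n l = _
      rw [ih, List.take_succ_cons]

/-- the list is empty -/
noncomputable def nilE (l : List Ent) : Bool :=
  @List.rec Ent (fun _ => Bool) true (fun _ _ _ => false) l

theorem nilE_eq {l : List Ent} (h : nilE l = true) : l = [] := by
  cases l with
  | nil => rfl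
  | cons x l => exact Bool.noConfusion h

theorem length_le_of_nilE {n : ℕ} {l : List Ent} (h : nilE (dropE n l) = true) : l.length ≤ n := by
  have h1 := nilE_eq h
  rw [dropE_eq] at h1
  exact List.drop_eq_nil_iff.1 h1

/-- the entries `a ≤ i < b` -/
noncomputable def cutE (a b : ℕ) (l : List Ent) : List Ent := takeE (Nat.sub b a) (dropE a l)

theorem mem_cutE {a b i : ℕ} {l : List Ent} {e : Ent} (h1 : a ≤ i) (h2 : i < b)
    (h : l[i]? = some e) : e ∈ cutE a b l := by
  unfold cutE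
  rw [takeE_eq, dropE_eq]
  refine List.mem_of_getElem? (i := i - a) ?_
  rw [List.getElem?_take, if_pos (show i - a < Nat.sub b a from by
    show i - a < b - a
    omega), List.getElem?_drop, show a + (i - a) = i by omega]
  exact h

theorem mem_of_cutE {a b : ℕ} {l : List Ent} {e : Ent} (h : e ∈ cutE a b l) : e ∈ l := by
  unfold cutE at h
  rw [takeE_eq, dropE_eq] at h
  exact List.mem_of_mem_drop (List.mem_of_mem_take h)

/-! ### the kernel functions -/

/-- one pair of groups; the words of the second list do not depend on the group `a` -/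
noncomputable def pairG (cbK : ℕ → ℕ → ((ℕ → ℕ → Cb) → Bool) → Bool) (M R m y : ℕ) (a b : Ent) : Cb :=
  fun s c =>
  frS a.X (zl a.p b.p) fun z => frS z (lenY z) fun ly => frS z (wY z) fun wy =>
    frS b.X (lenZ a.p b.p) fun lz => frS b.X (wZ a.p b.p) fun wz =>
      frS R (zl a.p b.p) fun z' => frS R (runD 4096 (lenR z') (wR a.p z') R) fun R' =>
        frS R (hm m a.p b.p) fun h =>
          cbK R' h fun cb => (fun Y Z => eng cb (cutS M y a.n Y) (cutL M b.n Z) s c)
            (runD KL ly wy a.Y) (runD KL lz wz b.X)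

/-- a rectangle of groups -/
noncomputable def rectK (cbK : ℕ → ℕ → ((ℕ → ℕ → Cb) → Bool) → Bool) (M R m p q a0 a1 b0 b1 y : ℕ)
    (l : List Ent) : Cb := fun s c =>
  ite0 (nilE (dropE 64 (posL p l))) false (ite0 (nilE (dropE 64 (posL q l))) false
    (loopL (fun a => loopL (fun b => pairG cbK M R m y a b) (cutE b0 b1 (posL q l)))
      (cutE a0 a1 (posL p l)) s c))

/-- a rectangle of groups of a centre -/
noncomputable def cenG (row : ℕ → List ℕ) (nl : ℕ → ℕ)
    (cbK : ℕ → ℕ → ((ℕ → ℕ → Cb) → Bool) → Bool) (v R C p q a0 a1 b0 b1 y : ℕ) : Cb := fun s c =>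
  frS C (Nat.sub (Nat.pow 2 131072) 1) fun M =>
    frS C R fun R => frS C (Nat.land C 15) fun n => frS C (Nat.shiftRight C 4) fun C' =>
      entsK row nl n C' fun m l =>
        ite0 (Nat.beq m (Nat.xor 4095 (Nat.shiftRight v 495))) false
          (rectK cbK M R m p q a0 a1 b0 b1 y l s c)

/-- **the check**: records and one rectangle; `p < q` -/
noncomputable def partG (tv typ : ℕ → ℕ) (NT : ℕ) (row : ℕ → List ℕ) (nl : ℕ → ℕ)
    (cbK : ℕ → ℕ → ((ℕ → ℕ → Cb) → Bool) → Bool) (j C p q a0 a1 b0 b1 y S : ℕ) : Bool :=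
  ite0 (Nat.ble (Nat.succ p) q) false
    (preA tv typ NT j C fun v => frS C (rootR v) fun R1 =>
      cenG row nl cbK v R1 C p q a0 a1 b0 b1 y S fun _ => true)

/-! ### soundness -/

/-- a pair of groups is done as far as `y` and `l` say -/
def PairGoodG (r m y : ℕ) (l : List (ℕ × Bool)) (a b : Ent) : Prop :=
  ∀ p q : Fin 13, p < q → q < 12 → ∀ B,
    CA r m p q B → a.p = p.val → Good b B q → ∀ i < 64 * a.n, i < 512 → y.testBit (i / 64) = true →
      fld 2048 a.Y i = cub 11 (Lay (moved (Equiv.swap p 11) B p)) →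
        Res l (cub 11 (LYL (mapF (piA p q) B)) ||| cub 11 (LZL (mapF (piA p q) B)) <<< 2048) →
          False

theorem acc_pairG {l : List (ℕ × Bool)} {cbK : ℕ → ℕ → ((ℕ → ℕ → Cb) → Bool) → Bool}
    {r m y : ℕ} {a b : Ent}
    {p q : Fin 13} (ha : a.p = p.val) (hb : b.p = q.val) (hpq : p < q) (hq : q < 12)
    (hmp : m.testBit p.val = true)
    (hcb : CbLawR l cbK (mapF (piA p q) (fam 12 4 r)) (hm m p.val q.val)) :
    Acc (PairGoodG r m y l a b)
      (pairG cbK (2 ^ 131072 - 1) (cub 12 (LayC (fam 12 4 r))) m y a b) := by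
  intro s c h
  unfold pairG at h
  simp only [frS_eq, runD_eq] at h
  rw [ha, hb] at h
  obtain ⟨cb, h1, h2⟩ := hcb _ (by
    rw [layC_mapF (piA_12 p q hpq hq)]
    exact root_letters hpq hq _) _ h
  obtain ⟨h3, h4⟩ := eng_acc h2 _ _ s c h1
  refine ⟨?_, h4⟩
  intro p' q' _ _ B hB hya hzb i hi hi2 hS hYi hres
  obtain rfl : p = p' := Fin.ext (ha.symm.trans hya)
  obtain rfl : q = q' := Fin.ext (hb.symm.trans hzb.pos)
  have hF := hB.frame hpq hq (hm_law hpq hq hmp)
  have h5 := fld_letters hpq hq hi2 hYi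
  have hk : i / 64 < a.n := Nat.div_lt_of_lt_mul hi
  have h6 := mem_cutS (M := 2 ^ 131072 - 1) (S := y)
    (Y := runC KL (lenY (zl p.val q.val)) (wY (zl p.val q.val)) a.Y) hk hS
  have e : Nat.land (Nat.shiftRight (runC KL (lenY (zl p.val q.val)) (wY (zl p.val q.val)) a.Y)
      (Nat.mul 131072 (i / 64))) (2 ^ 131072 - 1) =
      cutK 64 (runC KL (lenY (zl p.val q.val)) (wY (zl p.val q.val)) a.Y) (i / 64) := by
    have e64 : 2048 * 64 = 131072 := by norm_num
    show (_ >>> (131072 * (i / 64))) &&& (2 ^ 131072 - 1) =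
      (_ >>> ((2048 * 64) * (i / 64))) % 2 ^ (2048 * 64)
    rw [Nat.and_two_pow_sub_one_eq_mod, e64]
  rw [e] at h6
  have h7 : fld 2048 (cutK 64 (runC KL (lenY (zl p.val q.val)) (wY (zl p.val q.val)) a.Y) (i / 64))
      (i % 64) = cub 11 (LYL (mapF (piA p q) B)) := by
    rw [fld_cutK (Nat.mod_lt _ (by norm_num)), Nat.div_add_mod]
    exact h5
  obtain ⟨Z, hZ, j, hj, hZj⟩ := inL_cutL (lzl_letters hpq hq hzb.le hzb.inX)
  refine h3 _ h6 Z hZ (i % 64) (Nat.mod_lt _ (by norm_num)) j hj ?_ (by rw [h7, hZj]; exact hres)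
    _ hF h7.symm hZj.symm
  rw [h7, hZj]
  exact agree_lay _

/-- what a rectangle proves -/
def RectA (row : ℕ → List ℕ) (nl : ℕ → ℕ) (v r C p q a0 a1 b0 b1 y : ℕ)
    (l : List (ℕ × Bool)) : Prop :=
  maskF (Nat.land C 15) (C >>> 4) = 4095 ^^^ (v >>> 495) ∧
    (posL p (entsF row nl (Nat.land C 15) (C >>> 4))).length ≤ 64 ∧
    (posL q (entsF row nl (Nat.land C 15) (C >>> 4))).length ≤ 64 ∧
    ∀ (i j : ℕ) (a b : Ent), a0 ≤ i → i < a1 → b0 ≤ j → j < b1 →
      (posL p (entsF row nl (Nat.land C 15) (C >>> 4)))[i]? = some a →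
      (posL q (entsF row nl (Nat.land C 15) (C >>> 4)))[j]? = some b →
        PairGoodG r (4095 ^^^ (v >>> 495)) y l a b

theorem acc_cenG {l : List (ℕ × Bool)} {row : ℕ → List ℕ} {nl typ : ℕ → ℕ} {NT : ℕ}
    {cbK : ℕ → ℕ → ((ℕ → ℕ → Cb) → Bool) → Bool} {v r C p q a0 a1 b0 b1 y : ℕ} (hpq : p < q)
    (hrecs : recsChk typ NT (cub 12 (fam 12 4 r)) (Nat.land C 15) 0 (C >>> 4) = true)
    (hcb : ∀ p q : Fin 13, p < q → q < 12 →
      CbLawR l cbK (mapF (piA p q) (fam 12 4 r)) (hm (4095 ^^^ (v >>> 495)) p.val q.val)) :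
    Acc (RectA row nl v r C p q a0 a1 b0 b1 y l)
      (cenG row nl cbK v (cub 12 (LayC (fam 12 4 r))) C p q a0 a1 b0 b1 y) := by
  intro s c h
  unfold cenG at h
  simp only [frS_eq] at h
  rw [entsK_eq] at h
  obtain ⟨h1, h2⟩ := ite0_and h
  have hm1 : maskF (Nat.land C 15) (C >>> 4) = 4095 ^^^ (v >>> 495) := Nat.eq_of_beq_eq_true h1
  have h2' : rectK cbK (2 ^ 131072 - 1) (cub 12 (LayC (fam 12 4 r)))
      (maskF (Nat.land C 15) (C >>> 4)) p q a0 a1 b0 b1 y
      (entsF row nl (Nat.land C 15) (C >>> 4)) s c = true := h2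
  rw [hm1] at h2'
  obtain ⟨-, hb⟩ := sorted_ents (row := row) (nl := nl) hrecs
  rw [hm1] at hb
  unfold rectK at h2'
  obtain ⟨h3, h4⟩ := ite0_and h2'
  obtain ⟨h5, h6⟩ := ite0_and h4
  obtain ⟨h7, h8⟩ := acc_loopL (P := fun a => ∀ b ∈ cutE b0 b1
      (posL q (entsF row nl (Nat.land C 15) (C >>> 4))),
        PairGoodG r (4095 ^^^ (v >>> 495)) y l a b) (fun a ha => acc_loopL fun b hb' => by
    obtain ⟨ha1, ha2⟩ := mem_posL.1 (mem_of_cutE ha)
    obtain ⟨hb1, hb2⟩ := mem_posL.1 (mem_of_cutE hb')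
    obtain ⟨-, ha11, hab'⟩ := hb a ha1
    obtain ⟨-, hb11, -⟩ := hb b hb1
    exact acc_pairG (a := a) (b := b) (p := ⟨a.p, by omega⟩) (q := ⟨b.p, by omega⟩) rfl rfl
      (Fin.mk_lt_mk.2 (by omega)) (show b.p < 12 by omega) hab'
      (hcb _ _ (Fin.mk_lt_mk.2 (by omega)) (show b.p < 12 by omega))) s c h6
  refine ⟨⟨hm1, length_le_of_nilE h3, length_le_of_nilE h5, ?_⟩, h8⟩
  intro i j a b hi hi' hj hj' ha hb'
  exact h7 a (mem_cutE hi hi' ha) b (mem_cutE hj hj' hb')

/-- a rectangle, together with the check of the records; vacuous if the class does not occur -/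
def RectOK (tv typ : ℕ → ℕ) (NT : ℕ) (row : ℕ → List ℕ) (nl : ℕ → ℕ)
    (j C p q a0 a1 b0 b1 y : ℕ) (l : List (ℕ × Bool)) : Prop :=
  (∃ B : Fam', OddCover B ∧ link B 12 = fam 12 4 (tv j % 2 ^ 495)) →
    recsChk typ NT (cub 12 (fam 12 4 (tv j % 2 ^ 495))) (Nat.land C 15) 0 (C >>> 4) = true ∧
      RectA row nl (tv j) (tv j % 2 ^ 495) C p q a0 a1 b0 b1 y l

section B

variable {tv typ : ℕ → ℕ} {NT : ℕ} {row : ℕ → List ℕ} {nl : ℕ → ℕ}
  {cbK : ℕ → ℕ → ((ℕ → ℕ → Cb) → Bool) → Bool}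

/-- **one rectangle** -/
theorem partG_sound {l : List (ℕ × Bool)} (h : LawA tv typ NT row nl cbK)
    {j C p q a0 a1 b0 b1 y S : ℕ}
    (hb : partG tv typ NT row nl (cbR l cbK) j C p q a0 a1 b0 b1 y S = true) :
    RectOK tv typ NT row nl j C p q a0 a1 b0 b1 y l := by
  rintro ⟨B, hB, hr⟩
  obtain ⟨h0, hb'⟩ := ite0_and hb
  obtain ⟨h1, h2⟩ := preA_split hb'
  rw [frS_eq, rootR_eq (h.good j) hB hr] at h2
  exact ⟨h1, (acc_cenG (typ := typ) (NT := NT) (Nat.le_of_ble_eq_true h0) h1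
    (fun p q hpq hq => cbLawR (h.cb _ (h.good j) p q hpq hq)) S _ h2).1⟩

/-- one rectangle without a condition on the lanes, with the callback itself -/
theorem partG_sound0 (h : LawA tv typ NT row nl cbK) {j C p q a0 a1 b0 b1 y S : ℕ}
    (hb : partG tv typ NT row nl cbK j C p q a0 a1 b0 b1 y S = true) :
    RectOK tv typ NT row nl j C p q a0 a1 b0 b1 y [] := by
  rintro ⟨B, hB, hr⟩
  obtain ⟨h0, hb'⟩ := ite0_and hb
  obtain ⟨h1, h2⟩ := preA_split hb'
  rw [frS_eq, rootR_eq (h.good j) hB hr] at h2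
  refine ⟨h1, (acc_cenG (typ := typ) (NT := NT) (Nat.le_of_ble_eq_true h0) h1
    (fun p q hpq hq => ?_) S _ h2).1⟩
  intro R hR k hk
  obtain ⟨cb, h3, h4⟩ := h.cb _ (h.good j) p q hpq hq R hR k hk
  exact ⟨cb, h3, fun u v => (h4 u v).mono fun h5 h6 _ => h5 h6⟩

/-- two intervals of groups of `p` -/
theorem RectOK.mga (m : ℕ) {j C p q a0 a1 b0 b1 y : ℕ} {l : List (ℕ × Bool)}
    (h0 : RectOK tv typ NT row nl j C p q a0 m b0 b1 y l)
    (h1 : RectOK tv typ NT row nl j C p q m a1 b0 b1 y l) :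
    RectOK tv typ NT row nl j C p q a0 a1 b0 b1 y l := by
  intro hB
  obtain ⟨h2, h3, h4, h5, h6⟩ := h0 hB
  obtain ⟨-, -, -, -, h7⟩ := h1 hB
  refine ⟨h2, h3, h4, h5, fun i k a b hi hi' hk hk' ha hb => ?_⟩
  by_cases h8 : i < m
  · exact h6 i k a b hi h8 hk hk' ha hb
  · exact h7 i k a b (not_lt.1 h8) hi' hk hk' ha hb

/-- two intervals of groups of `q` -/
theorem RectOK.mgb (m : ℕ) {j C p q a0 a1 b0 b1 y : ℕ} {l : List (ℕ × Bool)}
    (h0 : RectOK tv typ NT row nl j C p q a0 a1 b0 m y l)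
    (h1 : RectOK tv typ NT row nl j C p q a0 a1 m b1 y l) :
    RectOK tv typ NT row nl j C p q a0 a1 b0 b1 y l := by
  intro hB
  obtain ⟨h2, h3, h4, h5, h6⟩ := h0 hB
  obtain ⟨-, -, -, -, h7⟩ := h1 hB
  refine ⟨h2, h3, h4, h5, fun i k a b hi hi' hk hk' ha hb => ?_⟩
  by_cases h8 : k < m
  · exact h6 i k a b hi hi' hk h8 ha hb
  · exact h7 i k a b hi hi' (not_lt.1 h8) hk' ha hb

/-- two sets of chunks -/
theorem RectOK.mgs {j C p q a0 a1 b0 b1 y y0 y1 : ℕ} {l : List (ℕ × Bool)} (e : y = y0 ||| y1)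
    (h0 : RectOK tv typ NT row nl j C p q a0 a1 b0 b1 y0 l)
    (h1 : RectOK tv typ NT row nl j C p q a0 a1 b0 b1 y1 l) :
    RectOK tv typ NT row nl j C p q a0 a1 b0 b1 y l := by
  intro hB
  obtain ⟨h2, h3, h4, h5, h6⟩ := h0 hB
  obtain ⟨-, -, -, -, h7⟩ := h1 hB
  refine ⟨h2, h3, h4, h5, fun i k a b hi hi' hk hk' ha hb => ?_⟩
  intro p' q' hpq hq B hA hp hG i2 hi2 hi3 hS hY hres
  rw [e, Nat.testBit_or, Bool.or_eq_true] at hS
  rcases hS with hS | hS
  · exact h6 i k a b hi hi' hk hk' ha hb p' q' hpq hq B hA hp hG i2 hi2 hi3 hS hY hres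
  · exact h7 i k a b hi hi' hk hk' ha hb p' q' hpq hq B hA hp hG i2 hi2 hi3 hS hY hres

/-- the first bit of the lanes is removed -/
theorem RectOK.mgl {c : ℕ} {l : List (ℕ × Bool)} {j C p q a0 a1 b0 b1 y : ℕ}
    (h0 : RectOK tv typ NT row nl j C p q a0 a1 b0 b1 y ((c, false) :: l))
    (h1 : RectOK tv typ NT row nl j C p q a0 a1 b0 b1 y ((c, true) :: l)) :
    RectOK tv typ NT row nl j C p q a0 a1 b0 b1 y l := by
  intro hB
  obtain ⟨h2, h3, h4, h5, h6⟩ := h0 hB
  obtain ⟨-, -, -, -, h7⟩ := h1 hB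
  refine ⟨h2, h3, h4, h5, fun i k a b hi hi' hk hk' ha hb => ?_⟩
  intro p' q' hpq hq B hA hp hG i2 hi2 hi3 hS hY hres
  cases h8 : (cub 11 (LYL (mapF (piA p' q') B)) |||
      cub 11 (LZL (mapF (piA p' q') B)) <<< 2048).testBit c with
  | false =>
    refine h6 i k a b hi hi' hk hk' ha hb p' q' hpq hq B hA hp hG i2 hi2 hi3 hS hY fun x hx => ?_
    rcases List.mem_cons.1 hx with rfl | hx
    · exact h8
    · exact hres x hx
  | true =>
    refine h7 i k a b hi hi' hk hk' ha hb p' q' hpq hq B hA hp hG i2 hi2 hi3 hS hY fun x hx => ?_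
    rcases List.mem_cons.1 hx with rfl | hx
    · exact h8
    · exact hres x hx

/-- the selection of one pair of positions -/
def selG (p q : ℕ) : ℕ := Nat.shiftLeft 255 (Nat.mul 8 (Nat.add (Nat.mul 12 p) q))

theorem testBit_selG {p q p' q' k : ℕ} (hq : q < 12) (hq' : q' < 12) (hk : k < 8)
    (h : (selG p q).testBit (8 * (12 * p' + q') + k) = true) : p' = p ∧ q' = q := by
  have e : selG p q = 255 <<< (8 * (12 * p + q)) := rfl
  rw [e, Nat.testBit_shiftLeft, Bool.and_eq_true, decide_eq_true_eq] at h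
  obtain ⟨h1, h2⟩ := h
  rw [show (255 : ℕ) = 2 ^ 8 - 1 by norm_num, Nat.testBit_two_pow_sub_one,
    decide_eq_true_eq] at h2
  omega

/-- **all groups of the pair `p, q`** -/
theorem RectOK.top {j C p q : ℕ} (hq : q < 12)
    (h : RectOK tv typ NT row nl j C p q 0 64 0 64 255 []) :
    PartOK tv typ NT row nl j C (selG p q) := by
  intro hB
  obtain ⟨h2, h3, h4, h5, h6⟩ := h hB
  refine ⟨h2, h3, List.pairwise_of_forall_mem_list ?_⟩
  intro a ha b hb _ p' q' hpq hq' B hA hp hG i hi hi2 hS hY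
  have hq'' : q'.val < 12 := hq'
  obtain ⟨e1, e2⟩ := testBit_selG hq hq'' (by omega) hS
  obtain ⟨i1, hi1⟩ := List.mem_iff_getElem?.1 (mem_posL.2 ⟨ha, hp.trans e1⟩)
  obtain ⟨i3, hi3⟩ := List.mem_iff_getElem?.1 (mem_posL.2 ⟨hb, hG.pos.trans e2⟩)
  have l1 := (List.getElem?_eq_some_iff.1 hi1).1
  have l3 := (List.getElem?_eq_some_iff.1 hi3).1
  exact h6 i1 i3 a b (Nat.zero_le _) (by omega) (Nat.zero_le _) (by omega) hi1 hi3 p' q' hpq hq' B
    hA hp hG i hi hi2 (by
      rw [show (255 : ℕ) = 2 ^ 8 - 1 by norm_num, Nat.testBit_two_pow_sub_one, decide_eq_true_eq]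
      omega) hY fun x hx => absurd hx List.not_mem_nil

end B

end Pool.Agent.Helper36.TY
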