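import Pool.Agent.Helper38.TY.InstA
import Pool.Agent.Helper36.TY.PartG

/-!
MP_8ee768_co, project TH-Y', stage A: the rectangles of the instance.

* `gtA j C p q a0 a1 b0 b1 y S`: the groups `a0 ≤ i < a1` of `p` (chunks with a bit in `y`) with the groups
  `b0 ≤ j < b1` of `q`;
* `glA j C p q a0 a1 b0 b1 y l S`: only the hits whose lanes have the bits of `l`;
* `gG`, `gL`, `GA.a`, `GA.b`, `GA.s`, `GA.l`, `gC`: a part of the centre from its rectangles.
-/

set_option autoImplicit false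
set_option maxRecDepth 100000
set_option exponentiation.threshold 2000000

namespace Pool.Agent.Helper36.TY

open Pool.Agent.Helper38.TY
open Pool.Agent.Helper52.TB (rowX)
open Pool.Agent.Helper7.TB (typ nl)
open Pool.Agent.Helper16.TY.Tab (tv)

/-- a rectangle of groups of the centre `j` -/
noncomputable def gtA (j C p q a0 a1 b0 b1 y S : ℕ) : Bool :=
  partG tv typ 5074 rowX nl cbF j C p q a0 a1 b0 b1 y S

/-- a rectangle of groups of the centre `j`, only the hits with the bits of `l` -/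
noncomputable def glA (j C p q a0 a1 b0 b1 y : ℕ) (l : List (ℕ × Bool)) (S : ℕ) : Bool :=
  partG tv typ 5074 rowX nl (cbR l cbF) j C p q a0 a1 b0 b1 y S

/-- the rectangle is done as far as `l` says, if the laws hold -/
def GA (j C p q a0 a1 b0 b1 y : ℕ) (l : List (ℕ × Bool)) : Prop :=
  LwA → RectOK tv typ 5074 rowX nl j C p q a0 a1 b0 b1 y l

theorem gG {j C p q a0 a1 b0 b1 y S : ℕ} (h : gtA j C p q a0 a1 b0 b1 y S = true) :
    GA j C p q a0 a1 b0 b1 y [] := fun hL => partG_sound0 hL h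

theorem gL {j C p q a0 a1 b0 b1 y S : ℕ} {l : List (ℕ × Bool)}
    (h : glA j C p q a0 a1 b0 b1 y l S = true) : GA j C p q a0 a1 b0 b1 y l :=
  fun hL => partG_sound hL h

theorem GA.a {j C p q a0 m a1 b0 b1 y : ℕ} {l : List (ℕ × Bool)} (h0 : GA j C p q a0 m b0 b1 y l)
    (h1 : GA j C p q m a1 b0 b1 y l) : GA j C p q a0 a1 b0 b1 y l := fun hL => (h0 hL).mga m (h1 hL)

theorem GA.b {j C p q a0 a1 b0 m b1 y : ℕ} {l : List (ℕ × Bool)} (h0 : GA j C p q a0 a1 b0 m y l)
    (h1 : GA j C p q a0 a1 m b1 y l) : GA j C p q a0 a1 b0 b1 y l := fun hL => (h0 hL).mgb m (h1 hL)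

theorem GA.s {j C p q a0 a1 b0 b1 y y0 y1 : ℕ} {l : List (ℕ × Bool)} (e : y = y0 ||| y1)
    (h0 : GA j C p q a0 a1 b0 b1 y0 l) (h1 : GA j C p q a0 a1 b0 b1 y1 l) :
    GA j C p q a0 a1 b0 b1 y l := fun hL => (h0 hL).mgs e (h1 hL)

theorem GA.l {j C p q a0 a1 b0 b1 y c : ℕ} {l : List (ℕ × Bool)}
    (h0 : GA j C p q a0 a1 b0 b1 y ((c, false) :: l))
    (h1 : GA j C p q a0 a1 b0 b1 y ((c, true) :: l)) :
    GA j C p q a0 a1 b0 b1 y l := fun hL => (h0 hL).mgl (h1 hL)

/-- one more part: a pair of positions in rectangles -/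
theorem gC {j C p q : ℕ} {Ss : List ℕ} (hq : q < 12) (h : GA j C p q 0 64 0 64 255 [])
    (h' : PA j C Ss) : PA j C (selG p q :: Ss) := fun hL => (h' hL).cons ((h hL).top hq)

end Pool.Agent.Helper36.TY
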