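import Pool.Agent.Helper38.TY.ChkA

/-!
MP_8ee768_co, project TH-Y', stage A: a part of a centre divided once more by bits of the two lanes.

`cbR l cbK` runs the callback only for the hits with lanes `u`, `v` (pair frame) such that the number
`u ||| v <<< 2048` has the bits of `l = [(b, x), ..]`: bit number `b` is `x`. `PartOKR .. l` is what the part
proves then; `PartOKR.mg` removes the first bit, `PartOKR.nil` the empty list.
-/

set_option autoImplicit false
set_option exponentiation.threshold 2000000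

namespace Pool.Agent.Helper36.TY

open Finset
open Pool.Agent.Helper89.CV (OddCover ofMask)
open Pool.Agent.Helper97.CV
open Pool.Agent.Helper79.CV
open Pool.Agent.Helper33.CV
open Pool.Agent.Helper82.TY (Best Lay)
open Pool.Agent.Helper63.SIMD (fld)
open Pool.Agent.Helper63.TY (Cb Acc Agree)
open Pool.Agent.Helper91.TY (runC Good RowsOK recsChk root_letters inL_cutL lyl_letters lzl_letters
  ents_pair ite0_and KL_eq cutK fld_cutK)
open Pool.Agent.Helper52.TY
open Pool.Agent.Helper38.TY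

/-- the mask of the bits of `l` -/
noncomputable def muL (l : List (ℕ × Bool)) : ℕ :=
  @List.rec (ℕ × Bool) (fun _ => ℕ) 0 (fun x _ ih => Nat.lor (Nat.pow 2 x.1) ih) l

/-- the bits of `l` that are one -/
noncomputable def ruL (l : List (ℕ × Bool)) : ℕ :=
  @List.rec (ℕ × Bool) (fun _ => ℕ) 0 (fun x _ ih => ite0 x.2 ih (Nat.lor (Nat.pow 2 x.1) ih)) l

/-- the number `u` has the bits of `l` -/
def Res (l : List (ℕ × Bool)) (u : ℕ) : Prop := ∀ x ∈ l, u.testBit x.1 = x.2

theorem land_muL {u : ℕ} : ∀ {l : List (ℕ × Bool)}, Res l u → u &&& muL l = ruL l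
  | [], _ => Nat.and_zero u
  | (b, x) :: l, h => by
    have ih := land_muL (l := l) fun y hy => h y (List.mem_cons_of_mem _ hy)
    have hb : u.testBit b = x := h (b, x) List.mem_cons_self
    show u &&& (2 ^ b ||| muL l) = ite0 x (ruL l) (2 ^ b ||| ruL l)
    rw [Nat.and_or_distrib_left, ih]
    cases x with
    | false =>
      rw [ite0_false]
      have h1 : u &&& 2 ^ b = 0 := by
        refine Nat.eq_of_testBit_eq fun i => ?_
        rw [Nat.testBit_and, Nat.testBit_two_pow, Nat.zero_testBit]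
        by_cases hi : b = i
        · rw [← hi, hb, Bool.false_and]
        · rw [decide_eq_false hi, Bool.and_false]
      rw [h1, Nat.zero_or]
    | true =>
      rw [ite0_true]
      have h1 : u &&& 2 ^ b = 2 ^ b := by
        refine Nat.eq_of_testBit_eq fun i => ?_
        rw [Nat.testBit_and, Nat.testBit_two_pow]
        by_cases hi : b = i
        · rw [← hi, hb, Bool.true_and]
        · rw [decide_eq_false hi, Bool.and_false]
      rw [h1]

/-- the callback for the lanes with the bits of `l` -/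
noncomputable def cbR (l : List (ℕ × Bool)) (cbK : ℕ → ℕ → ((ℕ → ℕ → Cb) → Bool) → Bool) :
    ℕ → ℕ → ((ℕ → ℕ → Cb) → Bool) → Bool :=
  fun R h k => cbK R h fun cb => k fun u v s c =>
    ite0 (Nat.beq (Nat.land (Nat.lor u (Nat.shiftLeft v 2048)) (muL l)) (ruL l)) (c s) (cb u v s c)

/-- the law of a restricted callback -/
def CbLawR (l : List (ℕ × Bool)) (cbK : ℕ → ℕ → ((ℕ → ℕ → Cb) → Bool) → Bool) (D : Fam')
    (h : ℕ) : Prop :=
  ∀ R, R % 2 ^ 4096 = cub 12 (LayC D) → ∀ k, cbK R h k = true → ∃ cb, k cb = true ∧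
    ∀ u v, Acc (Agree u v → (Res l (u ||| v <<< 2048) → LaneDeadL (HA D h) u v)) (cb u v)

theorem cbLawR {l : List (ℕ × Bool)} {cbK : ℕ → ℕ → ((ℕ → ℕ → Cb) → Bool) → Bool} {D : Fam'}
    {h : ℕ} (hc : CbLaw cbK D h) : CbLawR l (cbR l cbK) D h := by
  intro R hR k hk
  obtain ⟨cb, h1, h2⟩ := hc R hR _ hk
  refine ⟨_, h1, fun u v s c h3 => ?_⟩
  cases h4 : Nat.beq (Nat.land (Nat.lor u (Nat.shiftLeft v 2048)) (muL l)) (ruL l) with
  | false =>
    rw [h4, ite0_false] at h3
    refine ⟨fun _ h5 => ?_, s, h3⟩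
    have h6 : Nat.land (Nat.lor u (Nat.shiftLeft v 2048)) (muL l) = ruL l := land_muL h5
    rw [h6, Nat.beq_refl] at h4
    exact Bool.noConfusion h4
  | true =>
    rw [h4, ite0_true] at h3
    obtain ⟨h5, h6⟩ := h2 u v s c h3
    exact ⟨fun h7 _ => h5 h7, h6⟩

/-- a pair of groups is done as far as `S` and `l` say -/
def PairGoodR (r m S : ℕ) (l : List (ℕ × Bool)) (a b : Ent) : Prop :=
  ∀ p q : Fin 13, p < q → q < 12 → ∀ B,
    CA r m p q B → a.p = p.val → Good b B q → ∀ i < 64 * a.n, i < 512 →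
      S.testBit (8 * (12 * p.val + q.val) + i / 64) = true →
        fld 2048 a.Y i = cub 11 (Lay (moved (Equiv.swap p 11) B p)) →
          Res l (cub 11 (LYL (mapF (piA p q) B)) ||| cub 11 (LZL (mapF (piA p q) B)) <<< 2048) →
            False

theorem acc_pairR {l : List (ℕ × Bool)} {cbK : ℕ → ℕ → ((ℕ → ℕ → Cb) → Bool) → Bool}
    {r m S : ℕ} {a b : Ent}
    {p q : Fin 13} (ha : a.p = p.val) (hb : b.p = q.val) (hpq : p < q) (hq : q < 12)
    (hmp : m.testBit p.val = true)
    (hcb : CbLawR l cbK (mapF (piA p q) (fam 12 4 r)) (hm m p.val q.val)) :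
    Acc (PairGoodR r m S l a b)
      (pairS cbK (2 ^ 131072 - 1) (cub 12 (LayC (fam 12 4 r))) m (selS S p.val q.val) a b) := by
  intro s c h
  unfold pairS at h
  simp only [frS_eq, runD_eq] at h
  rw [ha, hb] at h
  obtain ⟨cb, h1, h2⟩ := hcb _ (by
    rw [layC_mapF (piA_12 p q hpq hq)]
    exact root_letters hpq hq _) _ h
  obtain ⟨h3, h4⟩ := eng_acc h2 _ _ s c h1
  refine ⟨?_, h4⟩
  intro p' q' _ _ B hB hya hzb i hi hi2 hS hYi hres
  obtain rfl : p = p' := Fin.ext (ha.symm.trans hya)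
  obtain rfl : q = q' := Fin.ext (hb.symm.trans hzb.pos)
  have hF := hB.frame hpq hq (hm_law hpq hq hmp)
  have h5 := fld_letters hpq hq hi2 hYi
  have hk : i / 64 < a.n := Nat.div_lt_of_lt_mul hi
  have h6 := mem_cutS (M := 2 ^ 131072 - 1) (S := selS S p.val q.val)
    (Y := runC KL (lenY (zl p.val q.val)) (wY (zl p.val q.val)) a.Y) hk
    (by rw [testBit_selS (by omega)]; exact hS)
  have e : Nat.land (Nat.shiftRight (runC KL (lenY (zl p.val q.val)) (wY (zl p.val q.val)) a.Y)
      (Nat.mul 131072 (i / 64))) (2 ^ 131072 - 1) =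
      cutK 64 (runC KL (lenY (zl p.val q.val)) (wY (zl p.val q.val)) a.Y) (i / 64) := by
    have e64 : 2048 * 64 = 131072 := by norm_num
    show (_ >>> (131072 * (i / 64))) &&& (2 ^ 131072 - 1) =
      (_ >>> ((2048 * 64) * (i / 64))) % 2 ^ (2048 * 64)
    rw [Nat.and_two_pow_sub_one_eq_mod, e64]
  rw [e] at h6
  have h7 : fld 2048 (cutK 64 (runC KL (lenY (zl p.val q.val)) (wY (zl p.val q.val)) a.Y) (i / 64))
      (i % 64) = cub 11 (LYL (mapF (piA p q) B)) := by
    rw [fld_cutK (Nat.mod_lt _ (by norm_num)), Nat.div_add_mod]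
    exact h5
  obtain ⟨Z, hZ, j, hj, hZj⟩ := inL_cutL (lzl_letters hpq hq hzb.le hzb.inX)
  refine h3 _ h6 Z hZ (i % 64) (Nat.mod_lt _ (by norm_num)) j hj ?_ (by rw [h7, hZj]; exact hres)
    _ hF h7.symm hZj.symm
  rw [h7, hZj]
  exact agree_lay _

/-- what a divided part of a centre proves -/
def PartAR (row : ℕ → List ℕ) (nl : ℕ → ℕ) (v r C S : ℕ) (l : List (ℕ × Bool)) : Prop :=
  maskF (Nat.land C 15) (C >>> 4) = 4095 ^^^ (v >>> 495) ∧
    (entsF row nl (Nat.land C 15) (C >>> 4)).Pairwise fun a b =>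
      a.p ≠ b.p → PairGoodR r (4095 ^^^ (v >>> 495)) S l a b

theorem acc_cenR {l : List (ℕ × Bool)} {row : ℕ → List ℕ} {nl typ : ℕ → ℕ} {NT : ℕ}
    {cbK : ℕ → ℕ → ((ℕ → ℕ → Cb) → Bool) → Bool} {v r C S : ℕ}
    (hrecs : recsChk typ NT (cub 12 (fam 12 4 r)) (Nat.land C 15) 0 (C >>> 4) = true)
    (hcb : ∀ p q : Fin 13, p < q → q < 12 →
      CbLawR l cbK (mapF (piA p q) (fam 12 4 r)) (hm (4095 ^^^ (v >>> 495)) p.val q.val)) :
    Acc (PartAR row nl v r C S l) (cenS row nl cbK v (cub 12 (LayC (fam 12 4 r))) C S) := by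
  intro s c h
  rw [cenS_eq] at h
  unfold cenSF at h
  obtain ⟨h1, h2⟩ := ite0_and h
  have hm1 : maskF (Nat.land C 15) (C >>> 4) = 4095 ^^^ (v >>> 495) := Nat.eq_of_beq_eq_true h1
  rw [hm1] at h2
  obtain ⟨hs, hb⟩ := sorted_ents (row := row) (nl := nl) hrecs
  rw [hm1] at hb
  obtain ⟨h3, h4⟩ := acc_pairs
    (P := fun a b => a.p ≠ b.p → PairGoodR r (4095 ^^^ (v >>> 495)) S l a b)
    (f := prP cbK (2 ^ 131072 - 1) (cub 12 (LayC (fam 12 4 r))) (4095 ^^^ (v >>> 495)) S) hs
    (fun a ha b hb' hab => by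
      intro s c h5
      unfold prP at h5
      cases h6 : Nat.beq a.p b.p with
      | true =>
        rw [h6, ite0_true] at h5
        exact ⟨fun h7 => absurd (Nat.eq_of_beq_eq_true h6) h7, s, h5⟩
      | false =>
        rw [h6, ite0_false, frS_eq] at h5
        have h7 : a.p ≠ b.p := fun h8 => by
          rw [h8] at h6
          have := Nat.beq_refl b.p
          rw [this] at h6
          exact Bool.noConfusion h6
        obtain ⟨-, ha11, hab'⟩ := hb a ha
        obtain ⟨-, hb11, -⟩ := hb b hb'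
        have hpq : (⟨a.p, by omega⟩ : Fin 13) < ⟨b.p, by omega⟩ := Fin.mk_lt_mk.2 (by omega)
        have hq12 : (⟨b.p, by omega⟩ : Fin 13) < 12 := by
          show b.p < 12
          omega
        cases h10 : Nat.beq (selS S a.p b.p) 0 with
        | true =>
          rw [h10, ite0_true] at h5
          refine ⟨fun _ => ?_, s, h5⟩
          intro p q _ _ B _ hp hq i _ hi hSi _ _
          have h11 : selS S a.p b.p = 0 := Nat.eq_of_beq_eq_true h10
          have h12 := testBit_selS (S := S) (p := a.p) (q := b.p) (k := i / 64) (by omega)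
          rw [h11, Nat.zero_testBit, hp, hq.pos, hSi] at h12
          exact Bool.noConfusion h12
        | false =>
          rw [h10, ite0_false] at h5
          obtain ⟨h8, h9⟩ := acc_pairR (S := S) (a := a) (b := b) (p := ⟨a.p, by omega⟩)
            (q := ⟨b.p, by omega⟩) rfl rfl hpq hq12 hab' (hcb _ _ hpq hq12) s c h5
          exact ⟨fun _ => h8, h9⟩) s c h2
  exact ⟨⟨hm1, h3⟩, h4⟩

/-- a divided part, together with the check of the records; vacuous if the class does not occur -/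
def PartOKR (tv typ : ℕ → ℕ) (NT : ℕ) (row : ℕ → List ℕ) (nl : ℕ → ℕ) (j C sel : ℕ)
    (l : List (ℕ × Bool)) : Prop :=
  (∃ B : Fam', OddCover B ∧ link B 12 = fam 12 4 (tv j % 2 ^ 495)) →
    recsChk typ NT (cub 12 (fam 12 4 (tv j % 2 ^ 495))) (Nat.land C 15) 0 (C >>> 4) = true ∧
      PartAR row nl (tv j) (tv j % 2 ^ 495) C sel l

section B

variable {tv typ : ℕ → ℕ} {NT : ℕ} {row : ℕ → List ℕ} {nl : ℕ → ℕ}
  {cbK : ℕ → ℕ → ((ℕ → ℕ → Cb) → Bool) → Bool}

/-- **one divided part**: the kernel function is `partA` with the restricted callback -/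
theorem partR_sound {l : List (ℕ × Bool)} (h : LawA tv typ NT row nl cbK) {j C sel S : ℕ}
    (hb : partA tv typ NT row nl (cbR l cbK) j C sel S = true) :
    PartOKR tv typ NT row nl j C sel l := by
  rintro ⟨B, hB, hr⟩
  obtain ⟨h1, h2⟩ := preA_split hb
  rw [frS_eq, rootR_eq (h.good j) hB hr] at h2
  exact ⟨h1, (acc_cenR (typ := typ) (NT := NT) h1
    (fun p q hpq hq => cbLawR (h.cb _ (h.good j) p q hpq hq)) S _ h2).1⟩

/-- the first bit is removed -/
theorem PartOKR.mg {b : ℕ} {l : List (ℕ × Bool)} {j C sel : ℕ}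
    (h0 : PartOKR tv typ NT row nl j C sel ((b, false) :: l))
    (h1 : PartOKR tv typ NT row nl j C sel ((b, true) :: l)) :
    PartOKR tv typ NT row nl j C sel l := by
  intro hB
  obtain ⟨h2, h3, h4⟩ := h0 hB
  obtain ⟨-, -, h5⟩ := h1 hB
  refine ⟨h2, h3, List.Pairwise.imp₂ ?_ h4 h5⟩
  intro a b' h6 h7 hab p q hpq hq B hA hp hG i hi hi2 hS hY hres
  cases h8 : (cub 11 (LYL (mapF (piA p q) B)) |||
      cub 11 (LZL (mapF (piA p q) B)) <<< 2048).testBit b with
  | false =>
    refine h6 hab p q hpq hq B hA hp hG i hi hi2 hS hY fun x hx => ?_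
    rcases List.mem_cons.1 hx with rfl | hx
    · exact h8
    · exact hres x hx
  | true =>
    refine h7 hab p q hpq hq B hA hp hG i hi hi2 hS hY fun x hx => ?_
    rcases List.mem_cons.1 hx with rfl | hx
    · exact h8
    · exact hres x hx

/-- no condition -/
theorem PartOKR.nil {j C sel : ℕ} (h : PartOKR tv typ NT row nl j C sel []) :
    PartOK tv typ NT row nl j C sel := by
  intro hB
  obtain ⟨h2, h3, h4⟩ := h hB
  refine ⟨h2, h3, h4.imp ?_⟩
  intro a b h5 hab p q hpq hq B hA hp hG i hi hi2 hS hY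
  exact h5 hab p q hpq hq B hA hp hG i hi hi2 hS hY fun x hx => absurd hx List.not_mem_nil

end B

end Pool.Agent.Helper36.TY
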