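import Pool.Agent.Helper38.TY.InstA
import Pool.Agent.Helper36.TY.PartR

/-!
MP_8ee768_co, project TH-Y', stage A: the divided parts of the instance.

* `ptR j C sel l S`: the part `sel` of the centre `j`, only the hits whose two lanes have the bits of `l`;
* `rR`, `RA.mg`, `rC`: a part from its divided parts.
-/

set_option autoImplicit false
set_option maxRecDepth 100000
set_option exponentiation.threshold 2000000

namespace Pool.Agent.Helper36.TY

open Pool.Agent.Helper38.TY
open Pool.Agent.Helper52.TB (rowX)
open Pool.Agent.Helper7.TB (typ nl)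
open Pool.Agent.Helper16.TY.Tab (tv)

/-- the part `sel` of the centre `j`, only the hits with the bits of `l` -/
noncomputable def ptR (j C sel : ℕ) (l : List (ℕ × Bool)) (S : ℕ) : Bool :=
  partA tv typ 5074 rowX nl (cbR l cbF) j C sel S

/-- the hits with the bits of `l` are done, if the laws hold -/
def RA (j C sel : ℕ) (l : List (ℕ × Bool)) : Prop := LwA → PartOKR tv typ 5074 rowX nl j C sel l

theorem rR {j C sel S : ℕ} {l : List (ℕ × Bool)} (h : ptR j C sel l S = true) : RA j C sel l :=
  fun hL => partR_sound hL h

/-- the first bit is removed -/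
theorem RA.mg {j C sel b : ℕ} {l : List (ℕ × Bool)} (h0 : RA j C sel ((b, false) :: l))
    (h1 : RA j C sel ((b, true) :: l)) : RA j C sel l := fun hL => (h0 hL).mg (h1 hL)

/-- one more part, divided -/
theorem rC {j C sel : ℕ} {Ss : List ℕ} (h : RA j C sel []) (h' : PA j C Ss) :
    PA j C (sel :: Ss) := fun hL => (h' hL).cons (h hL).nil

end Pool.Agent.Helper36.TY
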